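import Pool.Agent.Q151.Tri.TwoEars
import Pool.Agent.Q151.Tri.Color

set_option autoImplicit false

/-!
# Kneser hypergraphs of triangulations need fewer colours

Problem MP_ea1cff_co asks whether for every `r ≥ 3` the chromatic number of the Kneser hypergraph
`KG^r(T_n)` of the triangulations of the `n`-gon is `⌈(n - r) / (r - 1)⌉` for all large `n`.
This is false for every `r ≥ 3`: the chromatic number is at most `⌈(n - r - 1) / (r - 1)⌉` for all
`n ≥ 3 r - 1`, which is smaller if `r - 1` divides `n - 2`.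
-/

namespace Pool.Agent.Results.MP_ea1cff_co.FewerColors

open Finset

/-- A diagonal `{i, j}` of the convex `n`-gon with the vertices `0, 1, ..., n - 1` (in cyclic
order), written as the pair `(i, j)` with `i < j`; the pairs `{i, i + 1}` and `{0, n - 1}` are
edges of the polygon. -/
def IsDiagonal (n : ℕ) (d : ℕ × ℕ) : Prop := d.1 + 2 ≤ d.2 ∧ d.2 < n ∧ ¬ (d.1 = 0 ∧ d.2 + 1 = n)

/-- Two diagonals `(i, j)` and `(k, l)` cross: `i < k < j < l` or `k < i < l < j`. -/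
def Cross (d e : ℕ × ℕ) : Prop :=
  (d.1 < e.1 ∧ e.1 < d.2 ∧ d.2 < e.2) ∨ (e.1 < d.1 ∧ d.1 < e.2 ∧ e.2 < d.2)

/-- A triangulation of the `n`-gon: a set of `n - 3` pairwise noncrossing diagonals. -/
def IsTriangulation (n : ℕ) (T : Finset (ℕ × ℕ)) : Prop :=
  (∀ d ∈ T, IsDiagonal n d) ∧ (∀ d ∈ T, ∀ e ∈ T, ¬ Cross d e) ∧ T.card = n - 3

/-- The set `T_n` of the triangulations of the `n`-gon. -/
abbrev Tn (n : ℕ) : Type := {T : Finset (ℕ × ℕ) // IsTriangulation n T}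

/-- A proper colouring of the Kneser hypergraph `KG^r(T_n)`: no `r` pairwise disjoint
triangulations have the same colour. -/
def IsProper (r n k : ℕ) (c : Tn n → Fin k) : Prop :=
  ∀ S : Finset (Tn n), S.card = r → (∀ T ∈ S, ∀ T' ∈ S, T ≠ T' → Disjoint T.1 T'.1) →
    ¬ ∃ a, ∀ T ∈ S, c T = a

/-- The chromatic number of `KG^r(T_n)`. -/
noncomputable def chi (r n : ℕ) : ℕ := sInf {k : ℕ | ∃ c : Tn n → Fin k, IsProper r n k c}

lemma isTri {n : ℕ} {T : Finset (ℕ × ℕ)} (h : IsTriangulation n T) : Q151.Tri.IsTri n T :=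
  ⟨h.1, h.2.1, h.2.2⟩

theorem coloring {r n : ℕ} (hr : 3 ≤ r) (hn : 3 * r - 1 ≤ n) :
    ∃ c : Tn n → Fin ((n - 3) / (r - 1)), IsProper r n ((n - 3) / (r - 1)) c := by
  have hn4 : 4 ≤ n := by omega
  refine ⟨fun T => ⟨Q151.Tri.colE r (Q151.Tri.ears n T.1), Q151.Tri.colE_lt hr hn _
    (fun v hv => (Q151.Tri.mem_ears.1 hv).1)⟩, ?_⟩
  rintro S hS hdis ⟨a, ha⟩
  refine Q151.Tri.no_mono (ι := Tn n) (E := fun T => Q151.Tri.ears n T.1) hr hS ?_ ?_ ?_ ?_
    (c := a.1) ?_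
  · intro T _
    exact Q151.Tri.two_le_ears hn4 (isTri T.2)
  · intro T hT T' hT' hne
    exact Q151.Tri.ears_disjoint (hdis T hT T' hT' hne)
  · intro T hT T' hT' hne x y hxy hE
    exact Q151.Tri.two_ears_inner hn4 x y T.1 T'.1 (isTri T.2) (isTri T'.2)
      (hdis T hT T' hT' hne) hxy hE
  · intro T hT T' hT' hne x y hxy hE
    exact Q151.Tri.two_ears_outer hn4 x y T.1 T'.1 (isTri T.2) (isTri T'.2)
      (hdis T hT T' hT' hne) hxy hE
  · intro T hT
    have := ha T hT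
    exact congrArg Fin.val this

/-- (1) For all `r ≥ 3` and `n ≥ 3 r - 1` the Kneser hypergraph `KG^r(T_n)` of the triangulations
of the `n`-gon has a proper colouring with `chi r n` colours, and
`chi r n ≤ ⌈(n - r - 1) / (r - 1)⌉`.
(2) If moreover `r - 1` divides `n - 2`, then `chi r n < ⌈(n - r) / (r - 1)⌉`.
(3) So for every `r ≥ 3` there are arbitrarily large `n` with `chi r n ≠ ⌈(n - r) / (r - 1)⌉`. -/
theorem result :
    (∀ r n : ℕ, 3 ≤ r → 3 * r - 1 ≤ n →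
      (∃ c : Tn n → Fin (chi r n), IsProper r n (chi r n) c) ∧
      (chi r n : ℤ) ≤ ⌈((n : ℚ) - r - 1) / ((r : ℚ) - 1)⌉) ∧
    (∀ r n : ℕ, 3 ≤ r → 3 * r - 1 ≤ n → (r - 1) ∣ (n - 2) →
      (chi r n : ℤ) < ⌈((n : ℚ) - r) / ((r : ℚ) - 1)⌉) ∧
    (∀ r : ℕ, 3 ≤ r → ∀ n0 : ℕ, ∃ n : ℕ, n0 ≤ n ∧
      (chi r n : ℤ) ≠ ⌈((n : ℚ) - r) / ((r : ℚ) - 1)⌉) := by
  have hle : ∀ r n : ℕ, 3 ≤ r → 3 * r - 1 ≤ n → chi r n ≤ (n - 3) / (r - 1) :=
    fun r n hr hn => Nat.sInf_le (coloring hr hn)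
  have h2 : ∀ r n : ℕ, 3 ≤ r → 3 * r - 1 ≤ n → (r - 1) ∣ (n - 2) →
      (chi r n : ℤ) < ⌈((n : ℚ) - r) / ((r : ℚ) - 1)⌉ := by
    intro r n hr hn hdvd
    obtain ⟨m, hm⟩ := hdvd
    have h3 := hle r n hr hn
    have hr1 : 0 < r - 1 := by omega
    have h4 : (n - 3) / (r - 1) < m := by
      rw [Nat.div_lt_iff_lt_mul hr1, mul_comm]
      omega
    have h5 : chi r n + 1 ≤ m := by omega
    have hrq : (0 : ℚ) < (r : ℚ) - 1 := by
      have : (3 : ℚ) ≤ r := by exact_mod_cast hr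
      linarith
    rw [Int.lt_ceil, lt_div_iff₀ hrq]
    have h6 : (n : ℚ) = 2 + ((r : ℚ) - 1) * m := by
      have h7 : n = 2 + (r - 1) * m := by omega
      have h8 : ((r - 1 : ℕ) : ℚ) = (r : ℚ) - 1 := by
        rw [Nat.cast_sub (by omega)]
        simp
      rw [h7]
      push_cast
      rw [h8]
    have h9 : ((chi r n : ℤ) : ℚ) + 1 ≤ m := by exact_mod_cast h5
    rw [h6]
    nlinarith
  refine ⟨?_, h2, ?_⟩
  · intro r n hr hn
    refine ⟨?_, ?_⟩
    · exact Nat.sInf_mem (s := {k : ℕ | ∃ c : Tn n → Fin k, IsProper r n k c})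
        ⟨_, coloring hr hn⟩
    · have h3 := hle r n hr hn
      have hr1 : 0 < r - 1 := by omega
      rw [← Int.sub_one_lt_iff, Int.lt_ceil]
      have hrq : (0 : ℚ) < (r : ℚ) - 1 := by
        have : (3 : ℚ) ≤ r := by exact_mod_cast hr
        linarith
      rw [lt_div_iff₀ hrq]
      have h4 : chi r n * (r - 1) ≤ n - 3 :=
        (Nat.mul_le_mul_right _ h3).trans (Nat.div_mul_le_self _ _)
      have h8 : ((r - 1 : ℕ) : ℚ) = (r : ℚ) - 1 := by
        rw [Nat.cast_sub (by omega)]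
        simp
      have h9 : ((n - 3 : ℕ) : ℚ) = (n : ℚ) - 3 := by
        rw [Nat.cast_sub (by omega)]
        simp
      have h5 : (chi r n : ℚ) * ((r : ℚ) - 1) ≤ (n : ℚ) - 3 := by
        rw [← h8, ← h9]
        exact_mod_cast h4
      push_cast
      linarith
  · intro r hr n0
    refine ⟨2 + (r - 1) * (n0 + 3), ?_, ?_⟩
    · have : 1 * (n0 + 3) ≤ (r - 1) * (n0 + 3) := Nat.mul_le_mul_right _ (by omega)
      omega
    · apply ne_of_lt
      apply h2 r _ hr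
      · have : (r - 1) * 3 ≤ (r - 1) * (n0 + 3) := Nat.mul_le_mul_left _ (by omega)
        omega
      · refine ⟨n0 + 3, ?_⟩
        omega

end Pool.Agent.Results.MP_ea1cff_co.FewerColors
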